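import Pool.Agent.Y267.RS.Stm

/-!
# RS-T2: lifting the flow to the branched double cover

Job 1131 of project RS (owner helper267).
-/

set_option autoImplicit false

namespace Pool.Agent.Y523.RS

open Set Filter Topology MeasureTheory unitInterval
open Pool.Agent.Y267.RS

noncomputable section

/-- the properties of the speed which are used (`vv_props` of job RS-T1) -/
abbrev VP : Prop := Continuous vv ∧ (∀ z, 0 ≤ vv z ∧ vv z ≤ 1) ∧
  (∀ z, vv z = 0 ↔ z = (0, 0) ∨ z = ((be : T1), 0)) ∧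
  ∃ L : ℝ, ∀ z u u', |vv (mv z u) - vv (mv z u')| ≤ L * |u - u'|

/-! ### the zeros of `F0` -/

theorem coe_fract (y : ℝ) : ((Int.fract y : ℝ) : T1) = (y : T1) := by
  rw [← sub_eq_zero, ← AddCircle.coe_sub, AddCircle.coe_eq_zero_iff]
  refine ⟨-⌊y⌋, ?_⟩
  have := Int.self_sub_fract y
  rw [zsmul_eq_mul, mul_one, Int.cast_neg]
  linarith

theorem exists_Ico (t : T1) : ∃ y : ℝ, 0 ≤ y ∧ y < 1 ∧ t = (y : T1) := by
  obtain ⟨y, rfl⟩ := QuotientAddGroup.mk_surjective t
  exact ⟨Int.fract y, Int.fract_nonneg y, Int.fract_lt_one y, (coe_fract y).symm⟩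

theorem zero_iff {F0 : T1 × T1 → ℂ} (H : HF F0) (z : T1 × T1) :
    F0 z = 0 ↔ z = (0, 0) ∨ z = ((be : T1), 0) := by
  constructor
  · intro h0
    obtain ⟨x, t⟩ := z
    obtain ⟨y, hy0, hy1, rfl⟩ := exists_Ico t
    rcases hy0.eq_or_lt with rfl | hy0
    · have e0 : ((0 : ℝ) : T1) = 0 := AddCircle.coe_zero 1
      rw [e0] at h0 ⊢
      obtain ⟨a, ha0, ha1, rfl⟩ := exists_Ico x
      rcases ha0.eq_or_lt with rfl | ha0
      · left; rw [e0]
      · rcases lt_trichotomy a be with h | h | h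
        · have := H.seam_neg a ha0 h
          rw [h0] at this
          exact absurd this (lt_irrefl _)
        · right; rw [h]
        · have := H.seam_pos a h ha1
          rw [h0] at this
          exact absurd this (lt_irrefl _)
    · exfalso
      rcases lt_trichotomy y (1 / 2) with h | h | h
      · have := H.up x y hy0 h
        rw [h0] at this
        exact absurd this (lt_irrefl _)
      · subst h
        have := H.top_re x
        rw [h0] at this
        exact absurd this (lt_irrefl _)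
      · have := H.down x (1 - y) (by linarith) (by linarith)
        have e : ((-(1 - y) : ℝ) : T1) = (y : T1) := by
          rw [← sub_eq_zero, ← AddCircle.coe_sub, AddCircle.coe_eq_zero_iff]
          exact ⟨-1, by simp⟩
        rw [e, h0] at this
        exact absurd this (lt_irrefl _)
  · rintro (rfl | rfl)
    · exact H.seam_zero0
    · exact H.seam_zero1

theorem mv_zero (z : T1 × T1) : mv z 0 = z := by
  unfold mv
  rw [mul_zero, AddCircle.coe_zero, add_zero, add_zero]

theorem mv_mv (z : T1 × T1) (a b : ℝ) : mv (mv z a) b = mv z (a + b) := by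
  unfold mv
  ext
  · show z.1 + ((al * a : ℝ) : T1) + ((al * b : ℝ) : T1) = z.1 + ((al * (a + b) : ℝ) : T1)
    rw [mul_add, AddCircle.coe_add, add_assoc]
  · show z.2 + ((a : ℝ) : T1) + ((b : ℝ) : T1) = z.2 + (((a + b : ℝ)) : T1)
    rw [AddCircle.coe_add, add_assoc]

/-- points of speed zero do not move -/
theorem lam_fixed (hv : VP) {lam : ℝ → T1 × T1 → ℝ} (hl : IsLam lam) {z : T1 × T1}
    (hz : vv z = 0) (s : ℝ) : lam s z = 0 := by
  obtain ⟨-, -, -, L, hL⟩ := hv
  have h := ODE_solution_unique_univ (v := fun _ y => vv (mv z y)) (s := fun _ => univ)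
    (K := (max L 0).toNNReal) (f := fun s => lam s z) (g := fun _ => 0) (t₀ := 0)
    (fun t => by
      rw [lipschitzOnWith_iff_dist_le_mul]
      intro a _ b _
      rw [Real.dist_eq, Real.dist_eq, Real.coe_toNNReal _ (le_max_right _ _)]
      exact (hL z a b).trans (mul_le_mul_of_nonneg_right (le_max_left _ _) (abs_nonneg _)))
    (fun t => ⟨hl.der t z, mem_univ _⟩)
    (fun t => ⟨by
      show HasDerivAt (fun _ : ℝ => (0 : ℝ)) (vv (mv z 0)) t
      rw [mv_zero, hz]
      exact hasDerivAt_const t (0 : ℝ), mem_univ _⟩)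
    (hl.zero z)
  exact congrFun h s

/-- other points do not reach points of speed zero -/
theorem lam_ne (hv : VP) {lam : ℝ → T1 × T1 → ℝ} (hl : IsLam lam) {z : T1 × T1}
    (hz : vv z ≠ 0) (s : ℝ) : vv (mv z (lam s z)) ≠ 0 := by
  intro h
  have h1 := hl.add s (-s) z
  rw [add_neg_cancel, hl.zero, lam_fixed hv hl h, add_zero] at h1
  rw [← h1, mv_zero] at h
  exact hz h

/-- nonzero complex numbers -/
abbrev C0 : Type := {x : ℂ // x ≠ 0}

/-- the squaring map -/
def sqr (x : C0) : C0 := ⟨x.1 ^ 2, pow_ne_zero 2 x.2⟩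

theorem cov_sqr : IsCoveringMap sqr := isCoveringMap_npow (𝕜 := ℂ) 2 (by norm_num)

/-- points of the double cover which are not branch points -/
abbrev SF0 (F0 : T1 × T1 → ℂ) : Type := {q : SF F0 // q.1.2 ≠ 0}

theorem mv_continuous : Continuous (fun p : (T1 × T1) × ℝ => mv p.1 p.2) := by
  unfold mv
  have h1 : Continuous (fun p : (T1 × T1) × ℝ => ((al * p.2 : ℝ) : T1)) :=
    (AddCircle.continuous_mk' 1).comp (continuous_const.mul continuous_snd)
  have h2 : Continuous (fun p : (T1 × T1) × ℝ => ((p.2 : ℝ) : T1)) :=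
    (AddCircle.continuous_mk' 1).comp continuous_snd
  exact ((continuous_fst.comp continuous_fst).add h1).prodMk
    ((continuous_snd.comp continuous_fst).add h2)

theorem base_continuous {lam : ℝ → T1 × T1 → ℝ} (hl : IsLam lam) :
    Continuous (fun p : ℝ × (T1 × T1) => mv p.2 (lam p.1 p.2)) :=
  mv_continuous.comp (continuous_snd.prodMk hl.cont)

/-- **RS-T2**: the flow lifts to the branched double cover -/
theorem t2 (hv : VP) : T2Stm := by
  intro F0 H lam hl
  have hvF : ∀ z, vv z = 0 ↔ F0 z = 0 := fun z => by rw [hv.2.2.1 z, zero_iff H z]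
  have hF0 : ∀ q : SF F0, q.1.2 ≠ 0 ↔ F0 q.1.1 ≠ 0 := fun q => by
    have h : q.1.2 ^ 2 = F0 q.1.1 := q.2
    rw [← h]
    exact (pow_ne_zero_iff two_ne_zero).symm
  have hne : ∀ (q : SF0 F0) (s : ℝ), F0 (mv q.1.1.1 (lam s q.1.1.1)) ≠ 0 := fun q s h =>
    lam_ne hv hl (fun h' => (hF0 q.1).1 q.2 ((hvF _).1 h')) s ((hvF _).2 h)
  -- the homotopy
  let Hm : C(I × (ℝ × SF0 F0), C0) :=
    ⟨fun p => ⟨F0 (mv p.2.2.1.1.1 (lam (p.1 * p.2.1) p.2.2.1.1.1)), hne p.2.2 _⟩, by
      apply Continuous.subtype_mk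
      apply H.cont.comp
      have h1 : Continuous (fun p : I × (ℝ × SF0 F0) => (p.1 : ℝ) * p.2.1) :=
        (continuous_subtype_val.comp continuous_fst).mul (continuous_fst.comp continuous_snd)
      have h2 : Continuous (fun p : I × (ℝ × SF0 F0) => p.2.2.1.1.1) :=
        continuous_fst.comp (continuous_subtype_val.comp (continuous_subtype_val.comp
          (continuous_snd.comp continuous_snd)))
      exact (base_continuous hl).comp (h1.prodMk h2)⟩
  let f : C(ℝ × SF0 F0, C0) := ⟨fun p => ⟨p.2.1.1.2, p.2.2⟩, by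
    apply Continuous.subtype_mk
    exact continuous_snd.comp (continuous_subtype_val.comp (continuous_subtype_val.comp
      continuous_snd))⟩
  have hH0 : ∀ a, Hm (0, a) = sqr (f a) := by
    intro a
    apply Subtype.ext
    show F0 (mv a.2.1.1.1 (lam ((0 : I) * a.1) a.2.1.1.1)) = a.2.1.1.2 ^ 2
    rw [show (((0 : I) : ℝ) * a.1) = 0 by simp, hl.zero, mv_zero]
    exact a.2.1.2.symm
  let g : ℝ × SF0 F0 → C0 := fun a => cov_sqr.liftHomotopy Hm f hH0 (1, a)
  have hg : Continuous g := (cov_sqr.liftHomotopy Hm f hH0).continuous.comp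
    (continuous_const.prodMk continuous_id)
  have hgsq : ∀ a : ℝ × SF0 F0, (g a).1 ^ 2 = F0 (mv a.2.1.1.1 (lam a.1 a.2.1.1.1)) := by
    intro a
    have h1 := congrFun (cov_sqr.liftHomotopy_lifts Hm f hH0) (1, a)
    have h2 := congrArg Subtype.val h1
    have h3 : (g a).1 ^ 2 = F0 (mv a.2.1.1.1 (lam ((1 : I) * a.1) a.2.1.1.1)) := h2
    rw [h3, show (((1 : I) : ℝ) * a.1) = a.1 by simp]
  have hg0 : ∀ q : SF0 F0, (g (0, q)).1 = q.1.1.2 := by
    intro q
    have hc : ∀ i : I, cov_sqr.liftHomotopy Hm f hH0 (i, (0, q)) =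
        cov_sqr.liftHomotopy Hm f hH0 (0, (0, q)) := by
      intro i
      refine cov_sqr.const_of_comp (g := fun i : I => cov_sqr.liftHomotopy Hm f hH0 (i, (0, q)))
        ((cov_sqr.liftHomotopy Hm f hH0).continuous.comp
          (continuous_id.prodMk continuous_const)) ?_ i 0
      intro i j
      have h1 := congrFun (cov_sqr.liftHomotopy_lifts Hm f hH0) (i, (0, q))
      have h2 := congrFun (cov_sqr.liftHomotopy_lifts Hm f hH0) (j, (0, q))
      have h3 : Hm (i, (0, q)) = Hm (j, (0, q)) := by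
        apply Subtype.ext
        show F0 (mv q.1.1.1 (lam ((i : ℝ) * 0) q.1.1.1)) = F0 (mv q.1.1.1 (lam ((j : ℝ) * 0) q.1.1.1))
        rw [mul_zero, mul_zero]
      exact h1.trans (h3.trans h2.symm)
    have h1 := hc 1
    have h2 := cov_sqr.liftHomotopy_zero Hm f hH0 (0, q)
    have h3 : g (0, q) = f (0, q) := h1.trans h2
    rw [h3]
    rfl
  -- the flow
  classical
  let Φ : ℝ → SF F0 → SF F0 := fun s q =>
    if h : q.1.2 ≠ 0 then ⟨(mv q.1.1 (lam s q.1.1), (g (s, ⟨q, h⟩)).1), hgsq (s, ⟨q, h⟩)⟩ else q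
  have hΦ1 : ∀ (s : ℝ) (q : SF F0) (h : q.1.2 ≠ 0),
      Φ s q = ⟨(mv q.1.1 (lam s q.1.1), (g (s, ⟨q, h⟩)).1), hgsq (s, ⟨q, h⟩)⟩ :=
    fun s q h => dif_pos h
  have hΦ2 : ∀ (s : ℝ) (q : SF F0), q.1.2 = 0 → Φ s q = q := fun s q h => dif_neg (not_not.2 h)
  have hbase : ∀ s q, (Φ s q).1.1 = mv q.1.1 (lam s q.1.1) := by
    intro s q
    by_cases h : q.1.2 = 0
    · have h1 : F0 q.1.1 = 0 := by
        by_contra h1
        exact ((hF0 q).2 h1) h
      rw [hΦ2 s q h, lam_fixed hv hl ((hvF _).2 h1), mv_zero]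
    · rw [hΦ1 s q h]
  have hzero : ∀ q, Φ 0 q = q := by
    intro q
    by_cases h : q.1.2 = 0
    · exact hΦ2 0 q h
    · rw [hΦ1 0 q h]
      apply Subtype.ext
      apply Prod.ext
      · show mv q.1.1 (lam 0 q.1.1) = q.1.1
        rw [hl.zero, mv_zero]
      · exact hg0 ⟨q, h⟩
  have hΦne : ∀ (s : ℝ) (q : SF F0), q.1.2 ≠ 0 → (Φ s q).1.2 ≠ 0 := by
    intro s q h
    rw [hΦ1 s q h]
    exact (g (s, ⟨q, h⟩)).2
  refine ⟨Φ, ⟨?_, hzero, ?_, hbase⟩⟩
  · -- continuity
    rw [continuous_iff_continuousAt]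
    rintro ⟨s, q⟩
    by_cases h : q.1.2 = 0
    · -- at a branch point
      have hF : F0 q.1.1 = 0 := by
        by_contra h1
        exact ((hF0 q).2 h1) h
      have hb : Continuous (fun p : ℝ × SF F0 => (Φ p.1 p.2).1.1) := by
        have e : (fun p : ℝ × SF F0 => (Φ p.1 p.2).1.1) =
            fun p : ℝ × SF F0 => mv p.2.1.1 (lam p.1 p.2.1.1) := by
          funext p
          exact hbase p.1 p.2
        rw [e]
        exact (base_continuous hl).comp (continuous_fst.prodMk (continuous_fst.comp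
          (continuous_subtype_val.comp continuous_snd)))
      have hsq : ∀ p : ℝ × SF F0, (Φ p.1 p.2).1.2 ^ 2 = F0 (Φ p.1 p.2).1.1 :=
        fun p => (Φ p.1 p.2).2
      have h2 : Tendsto (fun p : ℝ × SF F0 => (Φ p.1 p.2).1.2 ^ 2) (𝓝 (s, q)) (𝓝 0) := by
        have h3 : Tendsto (fun p : ℝ × SF F0 => F0 (Φ p.1 p.2).1.1) (𝓝 (s, q))
            (𝓝 (F0 (Φ s q).1.1)) := (H.cont.comp hb).continuousAt
        rw [hΦ2 s q h, hF] at h3
        exact h3.congr (fun p => (hsq p).symm)
      have h4 : Tendsto (fun p : ℝ × SF F0 => (Φ p.1 p.2).1.2) (𝓝 (s, q)) (𝓝 0) := by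
        rw [tendsto_zero_iff_norm_tendsto_zero] at h2 ⊢
        have h5 : Tendsto (fun p : ℝ × SF F0 => √‖(Φ p.1 p.2).1.2 ^ 2‖) (𝓝 (s, q)) (𝓝 √0) :=
          (Real.continuous_sqrt.tendsto 0).comp h2
        rw [Real.sqrt_zero] at h5
        refine h5.congr (fun p => ?_)
        rw [norm_pow, Real.sqrt_sq (norm_nonneg _)]
      rw [ContinuousAt, tendsto_subtype_rng]
      have h6 : Tendsto (fun p : ℝ × SF F0 => ((Φ p.1 p.2).1.1, (Φ p.1 p.2).1.2)) (𝓝 (s, q))
          (𝓝 ((Φ s q).1.1, (Φ s q).1.2)) := by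
        apply Tendsto.prodMk_nhds
        · exact hb.continuousAt
        · rw [hΦ2 s q h, h]
          exact h4
      exact h6
    · -- elsewhere
      have hop : IsOpen {p : ℝ × SF F0 | p.2.1.2 ≠ 0} :=
        isOpen_ne_fun (continuous_snd.comp (continuous_subtype_val.comp continuous_snd))
          continuous_const
      have hon : ContinuousOn (Function.uncurry Φ) {p : ℝ × SF F0 | p.2.1.2 ≠ 0} := by
        rw [continuousOn_iff_continuous_domRestrict]
        have e : {p : ℝ × SF F0 | p.2.1.2 ≠ 0}.domRestrict (Function.uncurry Φ) =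
            fun p : {p : ℝ × SF F0 | p.2.1.2 ≠ 0} =>
              (⟨(mv p.1.2.1.1 (lam p.1.1 p.1.2.1.1), (g (p.1.1, ⟨p.1.2, p.2⟩)).1),
                hgsq (p.1.1, ⟨p.1.2, p.2⟩)⟩ : SF F0) := by
          funext p
          exact hΦ1 p.1.1 p.1.2 p.2
        rw [e]
        apply Continuous.subtype_mk
        apply Continuous.prodMk
        · exact (base_continuous hl).comp ((continuous_fst.comp continuous_subtype_val).prodMk
            (continuous_fst.comp (continuous_subtype_val.comp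
              (continuous_snd.comp continuous_subtype_val))))
        · apply continuous_subtype_val.comp
          apply hg.comp
          apply (continuous_fst.comp continuous_subtype_val).prodMk
          apply Continuous.subtype_mk
          exact continuous_snd.comp continuous_subtype_val
      exact hon.continuousAt (hop.mem_nhds h)
  · -- the flow property
    intro s s' q
    by_cases h : q.1.2 = 0
    · rw [hΦ2 _ q h, hΦ2 s q h, hΦ2 s' q h]
    · have h1 := hΦne s q h
      have hpos : ∀ t : ℝ, mv q.1.1 (lam (s + t) q.1.1) =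
          mv (mv q.1.1 (lam s q.1.1)) (lam t (mv q.1.1 (lam s q.1.1))) := by
        intro t
        rw [mv_mv, ← hl.add]
      have hroot : (fun t : ℝ => g (s + t, ⟨q, h⟩)) = fun t : ℝ => g (t, ⟨Φ s q, h1⟩) := by
        refine cov_sqr.eq_of_comp_eq (hg.comp ((continuous_const.add continuous_id).prodMk
          continuous_const)) (hg.comp (continuous_id.prodMk continuous_const)) ?_ 0 ?_
        · funext t
          apply Subtype.ext
          show (g (s + t, ⟨q, h⟩)).1 ^ 2 = (g (t, ⟨Φ s q, h1⟩)).1 ^ 2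
          rw [hgsq, hgsq]
          show F0 (mv q.1.1 (lam (s + t) q.1.1)) = F0 (mv (Φ s q).1.1 (lam t (Φ s q).1.1))
          rw [hbase, hpos]
        · apply Subtype.ext
          show (g (s + 0, ⟨q, h⟩)).1 = (g (0, ⟨Φ s q, h1⟩)).1
          rw [hg0, add_zero]
          exact (congrArg (fun r : SF F0 => r.1.2) (hΦ1 s q h)).symm
      have h2 := congrFun hroot s'
      have h2' : g (s + s', ⟨q, h⟩) = g (s', ⟨Φ s q, h1⟩) := h2
      rw [hΦ1 (s + s') q h, hΦ1 s' (Φ s q) h1]
      apply Subtype.ext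
      apply Prod.ext
      · show mv q.1.1 (lam (s + s') q.1.1) = mv (Φ s q).1.1 (lam s' (Φ s q).1.1)
        rw [hbase, hpos]
      · exact congrArg Subtype.val h2'

end

end Pool.Agent.Y523.RS
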